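import Pool.Agent.Lib.MP_be0380_co.G.Min
import Pool.Agent.Lib.MP_be0380_co.G.Gin
import Pool.Agent.Lib.MP_be0380_co.G.Base

/-!
# be0380, module F1: the Gibbs chain (2.3)

Index shifted by one: `I 0 = 0` is `I^(-1)`, `I (k+1) = I k + J k` is `I^(k)`.
-/

set_option autoImplicit false

open Finset

namespace Pool.MPbe0380.Gb

variable {p : ℕ} [Fact p.Prime]

theorem Ex_nonneg (I : ZMod p → ℝ) {f : ZMod p → ℝ} (hf : ∀ l, 0 ≤ f l) : 0 ≤ Ex I f :=
  sum_nonneg fun l _ => mul_nonneg (om_pos I l).le (hf l)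

theorem Ex_u_le_two (I : ZMod p → ℝ) (a : ZMod p) : Ex I (u a) ≤ 2 := by
  unfold Ex
  calc ∑ l, om I l * u a l ≤ ∑ l, om I l * 2 :=
        sum_le_sum fun l _ => mul_le_mul_of_nonneg_left (u_le_two a l) (om_pos I l).le
    _ = 2 := by rw [← sum_mul, (isLaw_om I).2, one_mul]

/-- adding mass lowers `V` -/
theorem V_add_le (I J : ZMod p → ℝ) (hI : ∀ a, 0 ≤ I a) : V (I + J) ≤ V J := by
  unfold V
  refine Real.log_le_log (Zp_pos _) ?_
  unfold Zp
  refine sum_le_sum fun l _ => Real.exp_le_exp.2 (neg_le_neg ?_)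
  unfold en
  refine sum_le_sum fun a _ => ?_
  rw [Pi.add_apply]
  exact mul_le_mul_of_nonneg_right (by linarith [hI a]) (u_nonneg a l)

/-- the data of one step -/
structure StepOK (A : Finset (ZMod p)) (I0 : ZMod p → ℝ) (m : ℝ) (J : ZMod p → ℝ) (L : ℝ) :
    Prop where
  nonneg : ∀ a, 0 ≤ J a
  supp : ∀ a, a ∉ A → J a = 0
  mass : ∑ a, J a = m
  kkt : ∀ a ∈ A, Ex (I0 + J) (u a) ≤ L
  kkt_eq : ∀ a, 0 < J a → Ex (I0 + J) (u a) = L

theorem exists_step (A : Finset (ZMod p)) (hA : A.Nonempty) (m : ℕ → ℝ) (hm : ∀ k, 0 < m k) :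
    ∃ (I J : ℕ → ZMod p → ℝ) (L : ℕ → ℝ), I 0 = 0 ∧ (∀ k, I (k + 1) = I k + J k) ∧
      ∀ k, StepOK A (I k) (m k) (J k) (L k) := by
  choose Jf h1 h2 h3 Lf h4 h5 _ using
    fun (I0 : ZMod p → ℝ) (k : ℕ) => exists_min A hA I0 (m k) (hm k)
  let I : ℕ → ZMod p → ℝ := fun n => Nat.rec 0 (fun k Ik => Ik + Jf Ik k) n
  refine ⟨I, fun k => Jf (I k) k, fun k => Lf (I k) k, rfl, fun k => rfl, fun k => ?_⟩
  exact ⟨h1 _ _, h2 _ _, h3 _ _, h4 _ _, h5 _ _⟩

section step

variable {A : Finset (ZMod p)} {I0 : ZMod p → ℝ} {m : ℝ} {J : ZMod p → ℝ} {L : ℝ}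

theorem StepOK.sum_eq (h : StepOK A I0 m J L) :
    ∑ a, J a * Ex (I0 + J) (u a) = m * L := by
  rw [← h.mass, sum_mul]
  refine sum_congr rfl fun a _ => ?_
  rcases (h.nonneg a).eq_or_lt with h0 | h0
  · rw [← h0, zero_mul, zero_mul]
  · rw [h.kkt_eq a h0]

theorem StepOK.L_nonneg (h : StepOK A I0 m J L) (hA : A.Nonempty) : 0 ≤ L := by
  obtain ⟨a, ha⟩ := hA
  exact le_trans (Ex_nonneg _ (u_nonneg a)) (h.kkt a ha)

/-- `m L ≤ V(I0) - V(I0 + J)` -/
theorem StepOK.gain (h : StepOK A I0 m J L) : m * L ≤ V I0 - V (I0 + J) := by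
  have h1 := V_ge (I0 + J) I0
  have h2 : ∑ a, ((I0 + J) a - I0 a) * Ex (I0 + J) (u a) = m * L := by
    rw [← h.sum_eq]
    refine sum_congr rfl fun a _ => ?_
    rw [Pi.add_apply, add_sub_cancel_left]
  linarith

theorem StepOK.loss (h : StepOK A I0 m J L) {B : ℝ} (hB : ∀ a ∈ A, Ex I0 (u a) ≤ B) :
    V I0 - V (I0 + J) ≤ m * B := by
  have h1 := V_ge I0 (I0 + J)
  have h2 : ∑ a, (I0 a - (I0 + J) a) * Ex I0 (u a) = - ∑ a, J a * Ex I0 (u a) := by
    rw [← sum_neg_distrib]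
    refine sum_congr rfl fun a _ => ?_
    rw [Pi.add_apply]
    ring
  have h3 : ∑ a, J a * Ex I0 (u a) ≤ m * B := by
    rw [← h.mass, sum_mul]
    refine sum_le_sum fun a _ => ?_
    by_cases ha : a ∈ A
    · exact mul_le_mul_of_nonneg_left (hB a ha) (h.nonneg a)
    · rw [h.supp a ha, zero_mul, zero_mul]
  linarith

/-- minimality -/
theorem StepOK.le (h : StepOK A I0 m J L) (J' : ZMod p → ℝ) (h0 : ∀ a, 0 ≤ J' a)
    (h1 : ∀ a, a ∉ A → J' a = 0) (h2 : ∑ a, J' a = m) : V (I0 + J) ≤ V (I0 + J') := by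
  have h3 := V_ge (I0 + J) (I0 + J')
  have h4 : ∑ a, ((I0 + J) a - (I0 + J') a) * Ex (I0 + J) (u a) =
      m * L - ∑ a, J' a * Ex (I0 + J) (u a) := by
    rw [← h.sum_eq, ← sum_sub_distrib]
    refine sum_congr rfl fun a _ => ?_
    rw [Pi.add_apply, Pi.add_apply]
    ring
  have h5 : ∑ a, J' a * Ex (I0 + J) (u a) ≤ m * L := by
    rw [← h2, sum_mul]
    refine sum_le_sum fun a _ => ?_
    by_cases ha : a ∈ A
    · exact mul_le_mul_of_nonneg_left (h.kkt a ha) (h0 a)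
    · rw [h1 a ha, zero_mul, zero_mul]
  linarith

end step

/-- the end of the chain: large uniform mass -/
theorem V_uniform (hp : 3 ≤ p) (A : Finset (ZMod p)) (hA : NUS A) (h2 : 2 ≤ A.card) (t : ℝ)
    (ht : 2 * Real.log p ≤ t) : V (fun a => if a ∈ A then t else 0) ≤ Real.log 2 := by
  classical
  have hp0 : (0 : ℝ) < p := by
    have : 0 < p := by omega
    exact_mod_cast this
  have hlog : 0 ≤ Real.log p := Real.log_nonneg (by
    have : 1 ≤ p := by omega
    exact_mod_cast this)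
  have ht0 : 0 ≤ t := by linarith
  unfold V
  refine Real.log_le_log (Zp_pos _) ?_
  have h3 : ∀ l : ZMod p, l ≠ 0 →
      Real.exp (- en (fun a => if a ∈ A then t else 0) l) ≤ 1 / (p : ℝ) ^ 2 := by
    intro l hl
    obtain ⟨a, haA, hau⟩ := straus hp A hA h2 l hl
    have h4 : t ≤ en (fun a => if a ∈ A then t else 0) l := by
      unfold en
      calc t ≤ (if a ∈ A then t else 0) * u a l := by
            rw [if_pos haA]
            nlinarith
        _ ≤ _ := single_le_sum (f := fun a => (if a ∈ A then t else 0) * u a l)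
            (fun b _ => by
              refine mul_nonneg ?_ (u_nonneg b l)
              split_ifs
              · exact ht0
              · exact le_refl _) (mem_univ a)
    have h5 : Real.exp (- en (fun a => if a ∈ A then t else 0) l) ≤
        Real.exp (- (2 * Real.log p)) := Real.exp_le_exp.2 (by linarith)
    refine le_trans h5 (le_of_eq ?_)
    rw [Real.exp_neg, two_mul, Real.exp_add, Real.exp_log hp0]
    ring
  have h6 : Zp (fun a => if a ∈ A then t else 0) ≤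
      ∑ l : ZMod p, if l = 0 then (1 : ℝ) else 1 / (p : ℝ) ^ 2 := by
    unfold Zp
    refine sum_le_sum fun l _ => ?_
    split_ifs with hl
    · rw [hl, en_zero_right, neg_zero, Real.exp_zero]
    · exact h3 l hl
  refine le_trans h6 ?_
  have h7 : ∑ l : ZMod p, (if l = 0 then (1 : ℝ) else 1 / (p : ℝ) ^ 2) ≤
      ∑ l : ZMod p, ((if l = 0 then (1 : ℝ) else 0) + 1 / (p : ℝ) ^ 2) := by
    refine sum_le_sum fun l _ => ?_
    split_ifs
    · have : (0 : ℝ) ≤ 1 / (p : ℝ) ^ 2 := by positivity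
      linarith
    · linarith
  refine le_trans h7 ?_
  rw [sum_add_distrib, sum_ite_eq' univ (0 : ZMod p), if_pos (mem_univ _), sum_const, card_univ,
    ZMod.card, nsmul_eq_mul]
  have h8 : (p : ℝ) * (1 / (p : ℝ) ^ 2) ≤ 1 := by
    have : (p : ℝ) * (1 / (p : ℝ) ^ 2) = 1 / p := by
      field_simp
    rw [this, div_le_one hp0]
    have : 1 ≤ p := by omega
    exact_mod_cast this
  linarith

/-- (2.3) -/
theorem chain_exists {p : ℕ} [Fact p.Prime] (hp : 3 ≤ p) (A : Finset (ZMod p)) (hA : NUS A)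
    (h2 : 2 ≤ A.card) :
    ∃ (I J : ℕ → ZMod p → ℝ) (L : ℕ → ℝ), I 0 = 0 ∧ (∀ k, I (k + 1) = I k + J k) ∧
      (∀ k a, 0 ≤ I k a) ∧ (∀ k a, a ∉ A → I k a = 0) ∧
      (∀ k a, 0 ≤ J k a) ∧ (∀ k a, a ∉ A → J k a = 0) ∧ (∀ k, ∑ a, J k a = 2 ^ k * √(A.card : ℝ)) ∧
      (∀ k, ∀ a ∈ A, Ex (I (k + 1)) (u a) ≤ L k) ∧ (∀ k a, 0 < J k a → Ex (I (k + 1)) (u a) = L k) ∧
      (∀ k, 0 ≤ L k) ∧ (∀ k, L (k + 1) ≤ L k) ∧
      -- `m_k L_k ≤ V_(k-1) - V_k`
      (∀ k, 2 ^ k * √(A.card : ℝ) * L k ≤ V (I k) - V (I (k + 1))) ∧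
      -- `V_(k-1) - V_k ≤ m_k L_(k-1)` for `k ≥ 1`
      (∀ k, V (I (k + 1)) - V (I (k + 2)) ≤ 2 ^ (k + 1) * √(A.card : ℝ) * L k) ∧
      -- `V_(k-1) - V_k ≤ 2 m_k`
      (∀ k, V (I k) - V (I (k + 1)) ≤ 2 * (2 ^ k * √(A.card : ℝ))) ∧
      -- the end of the chain
      (∀ k, 2 * (A.card : ℝ) * Real.log p ≤ 2 ^ k * √(A.card : ℝ) → V (I (k + 1)) ≤ Real.log 2) := by
  classical
  have hn : (0 : ℝ) < A.card := by
    have : 0 < A.card := by omega
    exact_mod_cast this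
  have hne : A.Nonempty := card_pos.1 (by omega)
  have hm : ∀ k : ℕ, (0 : ℝ) < 2 ^ k * √(A.card : ℝ) := fun k =>
    mul_pos (by positivity) (Real.sqrt_pos.2 hn)
  obtain ⟨I, J, L, hI0, hI, hS⟩ := exists_step A hne (fun k => 2 ^ k * √(A.card : ℝ)) hm
  have hIn : ∀ k a, 0 ≤ I k a := by
    intro k
    induction k with
    | zero =>
      intro a
      rw [hI0, Pi.zero_apply]
    | succ k ih =>
      intro a
      rw [hI, Pi.add_apply]
      exact add_nonneg (ih a) ((hS k).nonneg a)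
  have hIs : ∀ k a, a ∉ A → I k a = 0 := by
    intro k
    induction k with
    | zero =>
      intro a _
      rw [hI0, Pi.zero_apply]
    | succ k ih =>
      intro a ha
      rw [hI, Pi.add_apply, ih a ha, (hS k).supp a ha, add_zero]
  have hkkt : ∀ k, ∀ a ∈ A, Ex (I (k + 1)) (u a) ≤ L k := by
    intro k a ha
    rw [hI]
    exact (hS k).kkt a ha
  refine ⟨I, J, L, hI0, hI, hIn, hIs, fun k => (hS k).nonneg, fun k => (hS k).supp,
    fun k => (hS k).mass, hkkt, ?_, fun k => (hS k).L_nonneg hne, ?_, ?_, ?_, ?_, ?_⟩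
  · intro k a ha
    rw [hI]
    exact (hS k).kkt_eq a ha
  · intro k
    -- a point with positive mass
    obtain ⟨a, ha⟩ : ∃ a, 0 < J (k + 1) a := by
      by_contra hcon
      push Not at hcon
      have h3 := (hS (k + 1)).mass
      have h4 : ∑ a, J (k + 1) a ≤ 0 := sum_nonpos fun a _ => hcon a
      have h5 := hm (k + 1)
      linarith
    have haA : a ∈ A := by
      by_contra h
      rw [(hS (k + 1)).supp a h] at ha
      exact lt_irrefl _ ha
    rw [← (hS (k + 1)).kkt_eq a ha]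
    exact le_trans (ginibre hp _ _ (hIn (k + 1)) (hS (k + 1)).nonneg a) (hkkt k a haA)
  · intro k
    rw [hI]
    exact (hS k).gain
  · intro k
    have h3 := (hS (k + 1)).loss (hkkt k)
    rw [← hI (k + 1)] at h3
    exact h3
  · intro k
    have h3 := (hS k).loss (B := 2) fun a _ => Ex_u_le_two _ a
    rw [← hI k] at h3
    linarith
  · intro k hk
    rw [hI]
    have h3 := (hS k).le (fun a => if a ∈ A then 2 ^ k * √(A.card : ℝ) / A.card else 0)
      (fun a => by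
        split_ifs
        · have := hm k
          positivity
        · exact le_refl _)
      (fun a ha => if_neg ha)
      (by
        rw [← sum_filter, sum_const, nsmul_eq_mul]
        have : (univ.filter fun a => a ∈ A) = A := by
          ext a
          simp
        rw [this]
        field_simp)
    refine le_trans h3 (le_trans (V_add_le _ _ (hIn k)) ?_)
    refine V_uniform hp A hA h2 _ ?_
    rw [le_div_iff₀ hn]
    linarith

end Pool.MPbe0380.Gb
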