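import Pool.Agent.Lib.MP_be0380_co.F.Main
import Pool.Agent.Lib.MP_be0380_co.T.Alpha
import Pool.Agent.Lib.MP_be0380_co.T.Beta1
import Pool.Agent.Lib.MP_be0380_co.T5.Beta2
import Pool.Agent.Lib.MP_be0380_co.S.Shannon

/-!
# be0380: the lower bound `c (log p)² ≤ |A|`
-/

set_option autoImplicit false

open Finset

namespace Pool.MPbe0380.Gb

/-- Proposition 2: there is no regular bad level of large index. -/
theorem no_bad_level : NoBad := by
  obtain ⟨k3, h3⟩ := no_alpha
  obtain ⟨k4, h4⟩ := no_beta1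
  obtain ⟨k5, h5⟩ := no_beta2
  refine ⟨max k3 (max k4 k5), ?_⟩
  intro p _ v hv
  have e3 : k3 ≤ v.k := (le_max_left _ _).trans hv
  have e4 : k4 ≤ v.k := ((le_max_left _ _).trans (le_max_right _ _)).trans hv
  have e5 : k5 ≤ v.k := ((le_max_right _ _).trans (le_max_right _ _)).trans hv
  rcases le_or_gt (((2 : ℝ) ^ v.k) ^ (1 / 100 : ℝ) * √(v.A.card : ℝ)) v.D with h | h
  · exact h3 p v e3 h
  · classical
    have hm : ∑ x ∈ v.supp, v.J x = v.m := by
      unfold Lev.supp Lev.m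
      rw [sum_filter]
      rw [← Finset.sum_subset (Finset.subset_univ v.A)]
      · refine sum_congr rfl fun x _ => ?_
        by_cases hx : 0 < v.J x
        · rw [if_pos hx]
        · rw [if_neg hx]
          exact (le_antisymm (not_lt.mp hx) (v.J_nonneg x)).symm
      · intro x _ hx
        exact v.J_supp x hx
    have hsplit := Finset.sum_filter_add_sum_filter_not v.supp
      (fun x => v.E (fun l => u x l ^ 2) < ((2 : ℝ) ^ v.k) ^ (-1 / 300 : ℝ) * v.L) v.J
    rw [hm] at hsplit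
    rcases le_or_gt (v.m / 2) (∑ x ∈ v.supp.filter
      (fun x => v.E (fun l => u x l ^ 2) < ((2 : ℝ) ^ v.k) ^ (-1 / 300 : ℝ) * v.L), v.J x) with h' | h'
    · exact h5 p v e5 h h'
    · refine h4 p v e4 h ?_
      have : v.supp.filter (fun x => ((2 : ℝ) ^ v.k) ^ (-1 / 300 : ℝ) * v.L ≤ v.E (fun l => u x l ^ 2)) =
          v.supp.filter (fun x => ¬ (v.E (fun l => u x l ^ 2) < ((2 : ℝ) ^ v.k) ^ (-1 / 300 : ℝ) * v.L)) := by
        apply filter_congr
        intro x _
        exact not_lt.symm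
      rw [this]
      linarith

/-- the two forms of the hypothesis -/
theorem nus_iff {p : ℕ} [Fact p.Prime] (A : Finset (ZMod p)) (h : NUS A) : Pool.MPbe0380.NUS A := by
  intro a ha b hb
  obtain ⟨c, hc, d, hd, hcd, hne⟩ := h a ha b hb
  refine ⟨c, hc, d, hd, hcd, ?_⟩
  intro h'
  apply hne
  rw [Sym2.eq_iff]
  exact h'

/-- Proposition 6 in the form used in `F/Main.lean`. -/
theorem shannon_main : Shannon := by
  intro ε hε
  obtain ⟨C, hC, n0, h⟩ := shannon_aux ε hε
  exact ⟨C, hC, n0, fun p _ A _ hA h2 hn => h p A (nus_iff A hA) h2 hn⟩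

/-- Every set `A ⊆ ZMod p` without a unique sum, `|A| ≥ 2`, has at least `c (log p)²` elements,
for all large primes `p`. -/
theorem main_bound : ∃ c : ℝ, 0 < c ∧ ∃ p0 : ℕ, ∀ (p : ℕ) [Fact p.Prime] (A : Finset (ZMod p)),
    p0 ≤ p → NUS A → 2 ≤ A.card → c * Real.log p ^ 2 ≤ A.card :=
  main_bound_of no_bad_level shannon_main

end Pool.MPbe0380.Gb
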