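import Pool.Agent.Lib.MP_be0380_co.F.ChainG
import Pool.Agent.Lib.MP_be0380_co.Glue

/-!
# be0380, module F2: Section 7, the main bound from Proposition 2 and Proposition 6
-/

set_option autoImplicit false

open Finset

namespace Pool.MPbe0380.Gb

/-- Proposition 2 -/
def NoBad : Prop := ∃ k2 : ℕ, ∀ (p : ℕ) [Fact p.Prime] (v : BLev p), k2 ≤ v.k → False

/-- Proposition 6 -/
def Shannon : Prop := ∀ ε : ℝ, 0 < ε → ∃ C : ℝ, 0 < C ∧ ∃ n0 : ℕ, ∀ (p : ℕ) [Fact p.Prime]
    (A : Finset (ZMod p)), 3 ≤ p → NUS A → 2 ≤ A.card → n0 ≤ A.card →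
    ∃ P : ZMod p → ℝ, IsLaw P ∧ (∀ x, 0 < P x) ∧ ent P ≤ C * √(A.card : ℝ) ∧
      ∀ a ∈ A, KL (tau a P) P ≤ ε

section chain

variable {p : ℕ} [Fact p.Prime] {A : Finset (ZMod p)} {I J : ℕ → ZMod p → ℝ} {L : ℕ → ℝ}
  {s : ℝ}

theorem mass_I (hI0 : I 0 = 0) (hI : ∀ k, I (k + 1) = I k + J k)
    (hm : ∀ k, ∑ a, J k a = 2 ^ k * s) (k : ℕ) : ∑ a, I k a = (2 ^ k - 1) * s := by
  induction k with
  | zero => simp [hI0]
  | succ k ih =>
    rw [hI]
    simp only [Pi.add_apply]
    rw [sum_add_distrib, ih, hm]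
    ring

theorem gain_sum (hs : 0 ≤ s) (hLmono : ∀ k, L (k + 1) ≤ L k)
    (hgain : ∀ k, 2 ^ k * s * L k ≤ V (I k) - V (I (k + 1))) (k : ℕ) :
    L k * ((2 ^ (k + 1) - 1) * s) ≤ V (I 0) - V (I (k + 1)) := by
  induction k with
  | zero =>
    have := hgain 0
    simp only [pow_zero, one_mul, zero_add, pow_one] at this ⊢
    linarith
  | succ k ih =>
    have h1 := hgain (k + 1)
    have h2 : (1 : ℝ) ≤ 2 ^ (k + 1) := one_le_pow₀ (by norm_num)
    have h3 : L (k + 1) * ((2 ^ (k + 1) - 1) * s) ≤ L k * ((2 ^ (k + 1) - 1) * s) :=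
      mul_le_mul_of_nonneg_right (hLmono k) (mul_nonneg (by linarith) hs)
    have h4 : L (k + 1) * ((2 ^ (k + 1 + 1) - 1) * s) =
        L (k + 1) * ((2 ^ (k + 1) - 1) * s) + 2 ^ (k + 1) * s * L (k + 1) := by ring
    rw [h4]
    linarith

theorem loss_sum (hloss : ∀ k, V (I k) - V (I (k + 1)) ≤ 2 * (2 ^ k * s)) (k : ℕ) :
    V (I 0) - V (I k) ≤ 2 * ((2 ^ k - 1) * s) := by
  induction k with
  | zero => simp
  | succ k ih =>
    have h1 := hloss k
    have h2 : 2 * ((2 ^ (k + 1) - 1) * s) = 2 * ((2 ^ k - 1) * s) + 2 * (2 ^ k * s) := by ring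
    rw [h2]
    linarith

end chain

/-- The main bound from Propositions 2 and 6. -/
theorem main_bound_of (hbad : NoBad) (hsh : Shannon) :
    ∃ c : ℝ, 0 < c ∧ ∃ p0 : ℕ, ∀ (p : ℕ) [Fact p.Prime] (A : Finset (ZMod p)),
    p0 ≤ p → NUS A → 2 ≤ A.card → c * Real.log p ^ 2 ≤ A.card := by
  obtain ⟨k2, hk2⟩ := hbad
  obtain ⟨e0, he0⟩ : ∃ e : ℝ, e = 1 / 10 ^ 8 := ⟨_, rfl⟩
  have he0p : 0 < e0 := by norm_num [he0]
  obtain ⟨C, hC, n0, hS⟩ := hsh (e0 / 2) (by positivity)
  obtain ⟨δ, hδ⟩ : ∃ d : ℝ, d = (e0 / 8) ^ 2 := ⟨_, rfl⟩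
  have hδ0 : 0 < δ := by
    rw [hδ]
    positivity
  have hδ1 : δ < 1 := by norm_num [hδ, he0]
  have hsq : √δ = e0 / 8 := by
    rw [hδ, Real.sqrt_sq (by positivity)]
  obtain ⟨k3, hk3⟩ : ∃ k3 : ℕ, 2 * C / (δ * e0) < 2 ^ k3 := pow_unbounded_of_one_lt _ (by norm_num)
  set k1 : ℕ := max (max k2 k3) 1 with hk1
  have hk12 : k2 ≤ k1 := le_trans (le_max_left _ _) (le_max_left _ _)
  have hk13 : k3 ≤ k1 := le_trans (le_max_right _ _) (le_max_left _ _)
  have hk11 : 1 ≤ k1 := le_max_right _ _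
  obtain ⟨C', hC'⟩ : ∃ c : ℝ, c = Real.log 2 + 8 / 3 + 10 * 2 ^ (k1 + 1) := ⟨_, rfl⟩
  have hlog2 : 0 < Real.log 2 := Real.log_pos (by norm_num)
  have hC'0 : 0 < C' := by
    rw [hC']
    positivity
  refine ⟨1 / C' ^ 2, by positivity, max 3 (9 ^ n0), ?_⟩
  intro p _ A hp hA h2
  have hp3 : 3 ≤ p := le_trans (le_max_left _ _) hp
  have hp9 : 9 ^ n0 ≤ p := le_trans (le_max_right _ _) hp
  have hp1 : (1 : ℝ) ≤ p := by
    have : 1 ≤ p := by omega
    exact_mod_cast this
  -- `n0 ≤ n`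
  have hn0 : n0 ≤ A.card := by
    have h3 := card_ge hp3 A hA h2
    have h4 : (n0 : ℝ) * Real.log 9 ≤ Real.log p := by
      rw [← Real.log_pow]
      refine Real.log_le_log (by positivity) ?_
      exact_mod_cast hp9
    have h5 : 0 < Real.log 9 := Real.log_pos (by norm_num)
    have h6 : (n0 : ℝ) ≤ A.card := by
      have : (n0 : ℝ) * Real.log 9 ≤ (A.card : ℝ) * Real.log 9 := by linarith
      exact le_of_mul_le_mul_right this h5
    exact_mod_cast h6
  obtain ⟨P, hP, hPpos, hent, hKL⟩ := hS p A hp3 hA h2 hn0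
  obtain ⟨I, J, L, hI0, hI, hIn, hIs, hJn, hJs, hJm, hkkt, hkkte, hL0, hLm, hgain, hloss1,
    hloss, hend⟩ := chain_exists hp3 A hA h2
  set s : ℝ := √(A.card : ℝ) with hs
  have hn : (2 : ℝ) ≤ A.card := by exact_mod_cast h2
  have hs1 : 1 ≤ s := by
    rw [hs]
    exact Real.one_le_sqrt.2 (by linarith)
  have hs0 : 0 < s := by linarith
  have hss : s * s = A.card := Real.mul_self_sqrt (by positivity)
  have hV0 : V (I 0) = Real.log p := by rw [hI0, V_zero]
  have hlogp : 0 ≤ Real.log p := Real.log_nonneg hp1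
  -- `L k ≤ e0` for `k ≥ k1`
  have hLk : ∀ k, k1 ≤ k → L k ≤ e0 := by
    intro k hk
    have h3 := gain_sum hs0.le hLm hgain k
    have h4 := glue (H := C * s) hP hPpos (by positivity) hent hδ0 hδ1 hKL (I := I (k + 1))
      (hIn _) (hIs _) (by
        rw [hsq]
        norm_num [he0])
    rw [mass_I hI0 hI hJm, hsq] at h4
    rw [hV0] at h3
    obtain ⟨x, hx⟩ : ∃ x : ℝ, x = 2 ^ (k + 1) - 1 := ⟨_, rfl⟩
    rw [← hx] at h3 h4
    have h5 : (2 : ℝ) ^ k3 ≤ 2 ^ k := pow_le_pow_right₀ (by norm_num) (le_trans hk13 hk)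
    have h6 : (2 : ℝ) ^ k ≤ x := by
      have : (1 : ℝ) ≤ 2 ^ k := one_le_pow₀ (by norm_num)
      rw [hx, pow_succ]
      linarith
    have h7 : 2 * C / (δ * e0) ≤ x := le_trans hk3.le (le_trans h5 h6)
    have hx0 : 0 < x := by
      have : (0 : ℝ) < 2 ^ k := by positivity
      linarith
    have h8 : C / δ ≤ e0 / 2 * x := by
      rw [div_le_iff₀ (by positivity)] at h7
      rw [div_le_iff₀ hδ0]
      have e1 : e0 / 2 * x * δ = x * (δ * e0) / 2 := by ring
      rw [e1]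
      linarith
    have h9 : L k * (x * s) ≤ C * s / δ + x * s * (e0 / 2 / 2 + 2 * (e0 / 8)) := by linarith
    have h10 : C * s / δ = C / δ * s := by ring
    rw [h10] at h9
    have h11 : L k * (x * s) ≤ e0 * (x * s) := by
      have h12 : C / δ * s ≤ e0 / 2 * x * s := mul_le_mul_of_nonneg_right h8 hs0.le
      have h13 : e0 / 2 / 2 + 2 * (e0 / 8) = e0 / 2 := by ring
      rw [h13] at h9
      calc L k * (x * s) ≤ C / δ * s + x * s * (e0 / 2) := h9
        _ ≤ e0 / 2 * x * s + x * s * (e0 / 2) := by gcongr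
        _ = e0 * (x * s) := by ring
    exact le_of_mul_le_mul_right h11 (by positivity)
  -- the recursion for `D`
  have hrec : ∀ k, k1 ≤ k → (2 : ℝ) ^ (k + 1) ≤ 4 * s * Real.log p →
      2 ^ (k + 1) * s * L (k + 1) ≤ s / ((k + 1 : ℕ) : ℝ) ^ 2 + 2 ^ k * s * L k / 4 := by
    intro k hk hK
    by_contra hcon
    push Not at hcon
    have hk0 : (0 : ℝ) < ((k + 1 : ℕ) : ℝ) := by positivity
    have h3 : 0 ≤ s / ((k + 1 : ℕ) : ℝ) ^ 2 := by positivity
    have h4 : 0 ≤ 2 ^ k * s * L k / 4 := by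
      have := hL0 k
      positivity
    have h5 : s / ((k + 1 : ℕ) : ℝ) ^ 2 < 2 ^ (k + 1) * s * L (k + 1) := by linarith
    have h6 : 2 ^ k * s * L k / 4 < 2 ^ (k + 1) * s * L (k + 1) := by linarith
    have h7 : L k ≤ 8 * L (k + 1) := by
      have h8 : 2 ^ k * s * L k ≤ 2 ^ k * s * (8 * L (k + 1)) := by
        have : (2 : ℝ) ^ (k + 1) * s * L (k + 1) = 2 * (2 ^ k * s * L (k + 1)) := by ring
        rw [this] at h6
        linarith
      exact le_of_mul_le_mul_left h8 (by positivity)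
    have hLpos : 0 < L (k + 1) := by
      rcases (hL0 (k + 1)).eq_or_lt with h | h
      · rw [← h, mul_zero] at h5
        linarith
      · exact h
    have hm : ∑ a, J (k + 1) a = 2 ^ (k + 1) * s := hJm (k + 1)
    refine hk2 p
      { A := A
        I0 := I (k + 1)
        J := J (k + 1)
        L := L (k + 1)
        p_odd := hp3
        nus := hA
        two_le := h2
        I0_nonneg := hIn _
        J_nonneg := hJn _
        I0_supp := hIs _
        J_supp := hJs _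
        L_pos := hLpos
        L_le := by
          rw [← he0]
          exact hLk (k + 1) (by omega)
        kkt := by
          intro a ha
          rw [← hI]
          exact hkkt (k + 1) a ha
        kkt_eq := by
          intro a ha
          rw [← hI]
          exact hkkte (k + 1) a ha
        reg := by
          intro a ha
          exact le_trans (hkkt k a ha) h7
        m_pos := by
          rw [hm]
          positivity
        k := k + 1
        m_eq := hm
        K_le := hK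
        bad := by
          rw [hm]
          exact h5 } (show k2 ≤ k + 1 by omega)
  -- the potential
  have hpot : ∀ j, (2 : ℝ) ^ (k1 + j) ≤ 4 * s * Real.log p →
      V (I (k1 + 1)) - 8 / 3 * (2 ^ k1 * s * L k1) - 8 / 3 * s / ((k1 : ℕ) : ℝ) ≤
      V (I (k1 + j + 1)) - 8 / 3 * (2 ^ (k1 + j) * s * L (k1 + j)) -
        8 / 3 * s / ((k1 + j : ℕ) : ℝ) := by
    intro j
    induction j with
    | zero =>
      intro _
      exact le_refl _
    | succ j ih =>
      intro hK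
      have hK' : (2 : ℝ) ^ (k1 + j) ≤ 4 * s * Real.log p := by
        refine le_trans ?_ hK
        exact pow_le_pow_right₀ (by norm_num) (by omega)
      refine le_trans (ih hK') ?_
      have h3 := hrec (k1 + j) (by omega) hK
      have h4 := hloss1 (k1 + j)
      set k := k1 + j with hk
      have e1 : k1 + (j + 1) = k + 1 := by omega
      rw [e1]
      have hkp : (0 : ℝ) < (k : ℝ) := by
        have : 0 < k := by omega
        exact_mod_cast this
      have h5 : s / ((k + 1 : ℕ) : ℝ) ^ 2 ≤ s / (k : ℝ) - s / ((k + 1 : ℕ) : ℝ) := by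
        push_cast
        rw [div_sub_div _ _ hkp.ne' (by positivity), div_le_div_iff₀ (by positivity) (by positivity)]
        nlinarith [mul_pos hs0 hkp, mul_pos hs0 (mul_pos hkp hkp)]
      have h6 : (2 : ℝ) ^ (k + 1) * s * L k = 2 * (2 ^ k * s * L k) := by ring
      rw [h6] at h4
      have h7 : 8 / 3 * s / ((k : ℕ) : ℝ) = 8 / 3 * (s / (k : ℝ)) := by ring
      have h8 : 8 / 3 * s / ((k + 1 : ℕ) : ℝ) = 8 / 3 * (s / ((k + 1 : ℕ) : ℝ)) := by ring
      rw [h7, h8]
      linarith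
  -- the first part of the chain
  have hfirst := loss_sum hloss (k1 + 1)
  rw [hV0] at hfirst
  have hD1 : 2 ^ k1 * s * L k1 ≤ 2 * (2 ^ k1 * s) := le_trans (hgain k1) (hloss k1)
  -- the last index
  obtain ⟨K0, hK0⟩ : ∃ K : ℕ, 2 * (A.card : ℝ) * Real.log p ≤ 2 ^ K * s := by
    obtain ⟨K, hK⟩ := pow_unbounded_of_one_lt (2 * (A.card : ℝ) * Real.log p)
      (by norm_num : (1 : ℝ) < 2)
    refine ⟨K, ?_⟩
    have : (2 : ℝ) ^ K * 1 ≤ 2 ^ K * s := mul_le_mul_of_nonneg_left hs1 (by positivity)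
    linarith
  have hbound : V (I (k1 + 1)) ≤ Real.log 2 + 8 / 3 * (2 * (2 ^ k1 * s)) + 8 / 3 * s := by
    by_cases hcase : 2 * (A.card : ℝ) * Real.log p ≤ 2 ^ k1 * s
    · have h3 := hend k1 hcase
      have : 0 ≤ 8 / 3 * (2 * (2 ^ k1 * s)) + 8 / 3 * s := by positivity
      linarith
    · classical
      have hex : ∃ j : ℕ, 2 * (A.card : ℝ) * Real.log p ≤ 2 ^ (k1 + j) * s := by
        refine ⟨K0, le_trans hK0 ?_⟩
        refine mul_le_mul_of_nonneg_right ?_ hs0.le
        exact pow_le_pow_right₀ (by norm_num) (by omega)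
      set j := Nat.find hex with hj
      have hjs := Nat.find_spec hex
      rw [← hj] at hjs
      have hj0 : j ≠ 0 := by
        intro h0
        rw [h0, Nat.add_zero] at hjs
        exact hcase hjs
      obtain ⟨i, hi⟩ : ∃ i, j = i + 1 := ⟨j - 1, by omega⟩
      have hmin := Nat.find_min hex (m := i) (by omega)
      push Not at hmin
      have hK : (2 : ℝ) ^ (k1 + j) ≤ 4 * s * Real.log p := by
        rw [hi, ← Nat.add_assoc, pow_succ]
        have h3 : 2 ^ (k1 + i) * s * 2 ≤ 4 * s * Real.log p * s := by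
          have : 4 * s * Real.log p * s = 4 * (s * s) * Real.log p := by ring
          rw [this, hss]
          linarith
        have h4 : (2 : ℝ) ^ (k1 + i) * 2 * s ≤ 4 * s * Real.log p * s := by linarith
        exact le_of_mul_le_mul_right h4 hs0
      have h3 := hpot j hK
      have h4 := hend (k1 + j) hjs
      have h5 : 0 ≤ 8 / 3 * (2 ^ (k1 + j) * s * L (k1 + j)) := by
        have := hL0 (k1 + j)
        positivity
      have h6 : 0 ≤ 8 / 3 * s / ((k1 + j : ℕ) : ℝ) := by positivity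
      have h7 : 8 / 3 * s / ((k1 : ℕ) : ℝ) ≤ 8 / 3 * s := by
        refine div_le_self (by positivity) ?_
        exact_mod_cast hk11
      have h8 : 8 / 3 * (2 ^ k1 * s * L k1) ≤ 8 / 3 * (2 * (2 ^ k1 * s)) :=
        mul_le_mul_of_nonneg_left hD1 (by norm_num)
      linarith
  -- the end
  have hfin : Real.log p ≤ C' * s := by
    have h3 : Real.log 2 ≤ Real.log 2 * s := by nlinarith
    have h4 : (2 : ℝ) ^ (k1 + 1) = 2 * 2 ^ k1 := by ring
    have h5 : 0 < (2 : ℝ) ^ k1 * s := by positivity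
    have h6 : C' * s = Real.log 2 * s + 8 / 3 * s + 20 * (2 ^ k1 * s) := by
      rw [hC', h4]
      ring
    have h7 : 2 * ((2 ^ (k1 + 1) - 1) * s) ≤ 4 * (2 ^ k1 * s) := by
      rw [h4]
      linarith
    rw [h6]
    linarith
  have h3 : Real.log p ^ 2 ≤ C' ^ 2 * A.card := by
    rw [← hss]
    have : Real.log p ^ 2 ≤ (C' * s) ^ 2 := pow_le_pow_left₀ hlogp hfin 2
    calc _ ≤ _ := this
      _ = _ := by ring
  rw [one_div, inv_mul_le_iff₀ (by positivity)]
  exact h3

end Pool.MPbe0380.Gb
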